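import Pool.Agent.R629.Filt.Embed
import Pool.Agent.R629.Filt.FinCase

set_option autoImplicit false

/-!
Classification of the filters on a set `Ω` whose stabilizer is a maximal subgroup of `Sym(Ω)`.

Main class: the superclosed (almost principal) filters `G` that are homogeneous, which means that
every positive set `A` receives embeddings, preserving null sets and positive sets, of finitely many
sets whose union is in `G`. The other filters with maximal stabilizer are the truncations
`{s ∈ G : |Ω \ s| < μ}` of these (they have the same stabilizer), and the filters whose stabilizer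
is the setwise stabilizer of a finite set or the almost stabilizer of an infinite set of smaller
cardinality than `Ω`.
-/

open Cardinal Set

universe u

namespace Pool.Agent.Results.MP_60ae12_al.Classification

open Pool.Agent.R629.Filt

variable {Ω : Type u}

/-- The stabilizer of the filter `F` in the symmetric group: the permutations `g` with `F^g = F`. -/
def filterStabilizer (F : Filter Ω) : Subgroup (Equiv.Perm Ω) where
  carrier := {g | ∀ s : Set Ω, g '' s ∈ F ↔ s ∈ F}
  mul_mem' := by
    intro g h hg hh s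
    rw [Equiv.Perm.coe_mul, image_comp]
    exact (hg _).trans (hh _)
  one_mem' := by
    intro s
    rw [Equiv.Perm.coe_one, image_id]
  inv_mem' := by
    intro g hg s
    have h := hg ((g⁻¹ : Equiv.Perm Ω) '' s)
    rw [← image_comp] at h
    have e : (g : Ω → Ω) ∘ ((g⁻¹ : Equiv.Perm Ω) : Ω → Ω) = id := by
      ext x; exact perm_self_inv g x
    rw [e, image_id] at h
    exact h.symm

/-- The depth of `F`: the least cardinality of a member of `F`. -/
noncomputable def depth (F : Filter Ω) : Cardinal.{u} := sInf {c | ∃ s ∈ F, #s = c}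

/-- `F` is closed: it contains every set whose symmetric difference with a member of `F` has
cardinality less than the depth. -/
def ClosedFilter (F : Filter Ω) : Prop :=
  ∀ s ∈ F, ∀ t : Set Ω, #(symmDiff s t : Set Ω) < depth F → t ∈ F

/-- `Φ` is an almost intersection of `F`: `|Φ \ s|` is less than the depth for all `s ∈ F`. -/
def AlmostIntersection (F : Filter Ω) (Φ : Set Ω) : Prop :=
  ∀ s ∈ F, #(Φ \ s : Set Ω) < depth F

/-- `F` is superclosed (almost principal): it is closed and has no almost intersection of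
cardinality the depth. -/
def Superclosed (F : Filter Ω) : Prop :=
  ClosedFilter F ∧ ∀ Φ : Set Ω, AlmostIntersection F Φ → #Φ ≠ depth F

/-- `A` is positive: its complement is not in `F`. -/
def Positive (F : Filter Ω) (A : Set Ω) : Prop := Aᶜ ∉ F

/-- `B` embeds in `A`: some injection of `B` into `A` preserves and reflects positive sets. -/
def EmbedsIn (F : Filter Ω) (B A : Set Ω) : Prop :=
  ∃ φ : Ω → Ω, InjOn φ B ∧ MapsTo φ B A ∧ ∀ C ⊆ B, (Positive F (φ '' C) ↔ Positive F C)

/-- `F` is homogeneous: for every positive set `A` some member of `F` is a union of finitely many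
sets each of which embeds in `A`. -/
def Homogeneous (F : Filter Ω) : Prop :=
  ∀ A : Set Ω, Positive F A → ∃ S : Set (Set Ω), S.Finite ∧ ⋃₀ S ∈ F ∧ ∀ B ∈ S, EmbedsIn F B A

/-! ### Translation to the notions of the helper files -/

lemma filterStabilizer_eq (F : Filter Ω) : filterStabilizer F = stab F := by
  ext g
  rw [mem_stab_iff]
  constructor
  · intro h A
    unfold Null
    rw [← Set.image_compl_eq g.bijective]
    exact h _
  · intro h s
    have := h sᶜ
    unfold Null at this
    rwa [← Set.image_compl_eq g.bijective, compl_compl] at this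

lemma depth_le {F : Filter Ω} {s : Set Ω} (hs : s ∈ F) : depth F ≤ #s :=
  csInf_le' ⟨s, hs, rfl⟩

lemma exists_depth (F : Filter Ω) : ∃ s ∈ F, #s = depth F :=
  csInf_mem (s := {c | ∃ s ∈ F, #s = c}) ⟨_, Set.univ, F.univ_mem, rfl⟩

lemma closedFilter_iff {F : Filter Ω} :
    ClosedFilter F ↔ ∀ A : Set Ω, #A < depth F → Null F A := by
  constructor
  · intro h A hA
    apply h _ F.univ_mem
    have e : symmDiff Set.univ Aᶜ = A := by
      ext x
      simp [Set.mem_symmDiff]
    rwa [e]
  · intro h s hs t ht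
    have h1 := h _ ht
    unfold Null at h1
    refine F.mem_of_superset (F.inter_mem hs h1) fun x hx => ?_
    by_contra hxt
    exact hx.2 (Or.inl ⟨hx.1, hxt⟩)

lemma depth_eq_of_cl {F : Filter Ω} [F.NeBot] {l : Cardinal.{u}} (h : Cl F l) : depth F = l := by
  obtain ⟨Y, hY, hYl⟩ := h.mem
  apply le_antisymm (hYl ▸ depth_le hY)
  obtain ⟨s, hs, hsc⟩ := exists_depth F
  rw [← hsc]
  apply h.le_of_not_null
  intro hn
  have := hn.union (null_compl hs)
  rw [union_compl_self] at this
  exact not_null_univ this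

lemma superclosed_of_cl {F : Filter Ω} [F.NeBot] {l : Cardinal.{u}} (h : Cl F l) (ht : Tall F l) :
    Superclosed F := by
  have hd := depth_eq_of_cl h
  refine ⟨closedFilter_iff.mpr (hd ▸ h.small), fun Φ hΦ hc => ?_⟩
  rw [hd] at hc
  obtain ⟨B, hB, hBn, hBl⟩ := ht Φ hc
  have h1 := hΦ Bᶜ hBn
  rw [hd, sdiff_compl, Set.inter_eq_right.mpr hB, hBl] at h1
  exact lt_irrefl _ h1

lemma cl_of_superclosed {F : Filter Ω} [F.NeBot] (h : Superclosed F) :
    Cl F (depth F) ∧ Tall F (depth F) := by
  obtain ⟨h1, h2⟩ := h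
  rw [closedFilter_iff] at h1
  obtain ⟨Y, hY, hYd⟩ := exists_depth F
  have hinf : ℵ₀ ≤ depth F := by
    by_contra hlt
    push Not at hlt
    have hYf : Y.Finite := Cardinal.lt_aleph0_iff_set_finite.mp (hYd ▸ hlt)
    have hYne : Y.Nonempty := Filter.nonempty_of_mem hY
    obtain ⟨y, hy⟩ := hYne
    -- if `Y` has another point then it can be removed
    have hYs : Y = {y} := by
      by_contra hne
      have h3 : Y \ {y} ⊂ Y := ⟨sdiff_subset, fun h => (h hy).2 rfl⟩
      have h4 : (Y \ {y}).Nonempty := by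
        by_contra h5
        rw [Set.not_nonempty_iff_eq_empty, Set.sdiff_eq_empty] at h5
        exact hne (Set.Subset.antisymm h5 (Set.singleton_subset_iff.mpr hy))
      have h5 : #({y} : Set Ω) < depth F := by
        rw [← hYd, ← Set.cast_ncard hYf, ← Set.cast_ncard (Set.finite_singleton y), Nat.cast_lt,
          Set.ncard_singleton]
        obtain ⟨z, hz⟩ := h4
        exact (Set.one_lt_ncard_iff hYf).mpr ⟨z, y, hz.1, hy, hz.2⟩
      have h6 : Y \ {y} ∈ F := by
        have := F.inter_mem hY (h1 _ h5)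
        rwa [← sdiff_eq] at this
      have h7 := depth_le h6
      rw [← hYd, ← Set.cast_ncard hYf, ← Set.cast_ncard (hYf.subset sdiff_subset),
        Nat.cast_le] at h7
      exact absurd (Set.ncard_lt_ncard h3 hYf) (not_lt.mpr h7)
    apply h2 Y _ hYd
    intro s hs
    have h3 : y ∈ s := by
      by_contra hys
      have h4 : Y ∩ s ∈ F := F.inter_mem hY hs
      have h5 : Y ∩ s = ∅ := by
        rw [hYs, Set.singleton_inter_eq_empty]
        exact hys
      rw [h5] at h4
      exact F.empty_notMem h4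
    have h4 : Y \ s = ∅ := by
      rw [hYs, Set.sdiff_eq_empty, Set.singleton_subset_iff]
      exact h3
    rw [h4, mk_eq_zero, ← hYd, pos_iff_ne_zero, Cardinal.mk_ne_zero_iff]
    exact ⟨y, hy⟩
  refine ⟨⟨hinf, h1, Y, hY, hYd⟩, fun A hA => ?_⟩
  by_contra hcon
  push Not at hcon
  apply h2 A _ hA
  intro s hs
  by_contra h3
  push Not at h3
  apply hcon (A \ s) sdiff_subset
  · exact (null_compl hs).mono fun x hx => hx.2
  · exact le_antisymm (hA ▸ mk_mono sdiff_subset) h3

lemma homogeneous_iff {F : Filter Ω} : Homogeneous F ↔ Hom F := by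
  unfold Homogeneous Hom Positive EmbedsIn Embeds Null Positive
  simp only [not_iff_not]

/-- Truncating a filter does not change its stabilizer. -/
lemma stab_trunc {F G : Filter Ω} {μ : Cardinal.{u}} (hY : ∃ Y ∈ G, #Y < μ)
    (hF : ∀ A, Null F A ↔ Null G A ∧ #A < μ) : stab F = stab G := by
  obtain ⟨Y, hY, hYμ⟩ := hY
  have hG : ∀ A, Null G A ↔ ∀ B ⊆ A, #B ≤ #Y → Null F B := by
    intro A
    constructor
    · intro hA B hB hBY
      exact (hF B).mpr ⟨hA.mono hB, hBY.trans_lt hYμ⟩
    · intro h
      have h1 := ((hF _).mp (h (A ∩ Y) inter_subset_left (mk_mono inter_subset_right))).1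
      refine (h1.union (null_compl hY)).mono fun x hx => ?_
      by_cases hxY : x ∈ Y
      · exact Or.inl ⟨hx, hxY⟩
      · exact Or.inr hxY
  apply le_antisymm
  · apply stab_le_stab
    intro g hg A hA
    rw [hG] at hA ⊢
    intro B hB hBκ
    have hi := Subgroup.inv_mem _ hg
    apply Null.of_image hi
    apply hA
    · rintro _ ⟨x, hx, rfl⟩
      obtain ⟨y, hy, rfl⟩ := hB hx
      rw [perm_inv_self]; exact hy
    · rwa [mk_image_eq (g⁻¹).injective]
  · apply stab_le_stab
    intro g hg A hA
    rw [hF] at hA ⊢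
    exact ⟨hA.1.image hg, by rw [mk_image_eq g.injective]; exact hA.2⟩

lemma mem_iff_of_null {F : Filter Ω} {p : Set Ω → Prop} (h : ∀ A, Null F A ↔ p A) (s : Set Ω) :
    s ∈ F ↔ p sᶜ := by
  rw [← h]
  unfold Null
  rw [compl_compl]

lemma null_of_mem_iff {F : Filter Ω} {p : Set Ω → Prop} (h : ∀ s, s ∈ F ↔ p sᶜ) (A : Set Ω) :
    Null F A ↔ p A := by
  unfold Null
  rw [h, compl_compl]

/-- The filter of the sets that contain `Φ` up to less than `#Φ` points. -/
def almostFilter (Φ : Set Ω) (hΦ : ℵ₀ ≤ #Φ) : Filter Ω :=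
  Filter.comk (fun A => #(Φ ∩ A : Set Ω) < #Φ)
    (by rw [inter_empty, mk_eq_zero]; exact aleph0_pos.trans_le hΦ)
    (fun A hA B hB => (mk_mono (inter_subset_inter_right Φ hB)).trans_lt hA)
    (fun A hA B hB => mk_lt_of_union hΦ (by rw [inter_union_distrib_left]) hA hB)

lemma null_almostFilter {Φ : Set Ω} {hΦ : ℵ₀ ≤ #Φ} {A : Set Ω} :
    Null (almostFilter Φ hΦ) A ↔ #(Φ ∩ A : Set Ω) < #Φ := by
  unfold Null almostFilter
  rw [Filter.mem_comk, compl_compl]

/-- The classification of the filters `F` on a set `Ω` for which the stabilizer `S_{F}` is a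
maximal subgroup of `Sym(Ω)`. -/
theorem result (Ω : Type u) (F : Filter Ω) [F.NeBot] :
    (Infinite Ω → (IsCoatom (filterStabilizer F) ↔
      -- (1) `F` is a truncation of a superclosed homogeneous filter
      (∃ G : Filter Ω, G.NeBot ∧ Superclosed G ∧ Homogeneous G ∧
        ∃ μ : Cardinal.{u}, depth G < μ ∧ ∀ s : Set Ω, s ∈ F ↔ s ∈ G ∧ #(sᶜ : Set Ω) < μ) ∨
      -- (2) the stabilizer of `F` is the almost stabilizer of an infinite set `Φ`
      (∃ Φ : Set Ω, ℵ₀ ≤ #Φ ∧ #Φ < #Ω ∧
        ((∀ s : Set Ω, s ∈ F ↔ #(sᶜ \ Φ : Set Ω) < #Φ) ∨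
          ∃ μ : Cardinal.{u}, #Φ < μ ∧
            ∀ s : Set Ω, s ∈ F ↔ #(Φ \ s : Set Ω) < #Φ ∧ #(sᶜ : Set Ω) < μ)) ∨
      -- (3) the stabilizer of `F` is the setwise stabilizer of a finite set `X`
      (∃ X : Set Ω, X.Finite ∧ X.Nonempty ∧
        ((∀ s : Set Ω, s ∈ F ↔ sᶜ ⊆ X) ∨
          ∃ μ : Cardinal.{u}, ℵ₀ ≤ μ ∧ ∀ s : Set Ω, s ∈ F ↔ X ⊆ s ∧ #(sᶜ : Set Ω) < μ)))) ∧
    (Finite Ω → (IsCoatom (filterStabilizer F) ↔
      ∃ X : Set Ω, F = Filter.principal X ∧ X ≠ Set.univ ∧
        (Nat.card Ω ≠ 2 * X.ncard ∨ Nat.card Ω = 2))) := by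
  rw [filterStabilizer_eq]
  refine ⟨fun hinf => ⟨fun hc => ?_, ?_⟩, fun hfin => ?_⟩
  · -- necessity
    have closedCase : ∀ G : Filter Ω, G.NeBot → ∀ κ : Cardinal.{u}, Cl G κ → IsCoatom (stab G) →
        ∀ μ : Cardinal.{u}, κ < μ → (∀ A, Null F A ↔ Null G A ∧ #A < μ) →
        (∃ G : Filter Ω, G.NeBot ∧ Superclosed G ∧ Homogeneous G ∧
          ∃ μ : Cardinal.{u}, depth G < μ ∧ ∀ s : Set Ω, s ∈ F ↔ s ∈ G ∧ #(sᶜ : Set Ω) < μ) ∨
        (∃ Φ : Set Ω, ℵ₀ ≤ #Φ ∧ #Φ < #Ω ∧
          ((∀ s : Set Ω, s ∈ F ↔ #(sᶜ \ Φ : Set Ω) < #Φ) ∨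
            ∃ μ : Cardinal.{u}, #Φ < μ ∧
              ∀ s : Set Ω, s ∈ F ↔ #(Φ \ s : Set Ω) < #Φ ∧ #(sᶜ : Set Ω) < μ)) := by
      intro G hG κ hcl hcG μ hμ hF
      by_cases ht : Tall G κ
      · left
        refine ⟨G, hG, superclosed_of_cl hcl ht,
          homogeneous_iff.mpr (homStab_iff_hom.mp (homStab_of_isCoatom hcl ht hcG)), μ,
          (depth_eq_of_cl hcl).symm ▸ hμ, fun s => ?_⟩
        have h1 := mem_iff_of_null (F := F) hF s
        unfold Null at h1
        rwa [compl_compl] at h1
      · right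
        unfold Tall at ht
        push Not at ht
        obtain ⟨Φ, hΦ, hΦn⟩ := ht
        have hperp : Perp G κ Φ := by
          intro C hC
          by_contra h
          push Not at h
          obtain ⟨C', hC', hC'κ⟩ := le_mk_iff_exists_subset.mp h
          exact hΦn C' (hC'.trans inter_subset_left) (hC.mono (hC'.trans inter_subset_right)) hC'κ
        obtain ⟨B, hB, hκΩ, hBn⟩ := form_of_almost_intersection hcl hΦ hperp hcG
        refine ⟨B, hB.symm ▸ hcl.inf, hB.symm ▸ hκΩ, Or.inr ⟨μ, hB.symm ▸ hμ, fun s => ?_⟩⟩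
        have h1 := mem_iff_of_null (F := F) hF s
        rw [hBn, ← sdiff_eq] at h1
        rw [hB]
        exact h1
    by_cases hx : ∃ x, ¬ Null F {x}
    · right; right
      obtain ⟨X, hX, hXne, h | ⟨μ, hμ, h⟩⟩ := form_of_inter_nonempty hc hx
      · exact ⟨X, hX, hXne, Or.inl fun s => mem_iff_of_null h s⟩
      · refine ⟨X, hX, hXne, Or.inr ⟨μ, hμ, fun s => ?_⟩⟩
        rw [mem_iff_of_null h s, Set.disjoint_compl_right_iff_subset]
    · push Not at hx
      -- the least cardinality of a non-null set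
      have hne : {c : Cardinal.{u} | ∃ B, ¬ Null F B ∧ #B = c}.Nonempty :=
        ⟨_, Set.univ, not_null_univ, rfl⟩
      obtain ⟨B₀, hB₀, hB₀κ⟩ := csInf_mem hne
      set κ := sInf {c : Cardinal.{u} | ∃ B, ¬ Null F B ∧ #B = c} with hκ
      have hsmall : ∀ A : Set Ω, #A < κ → Null F A := by
        intro A hA
        by_contra h
        exact notMem_of_lt_csInf' hA ⟨A, h, rfl⟩
      have hκinf : ℵ₀ ≤ κ := by
        rw [← hB₀κ]
        by_contra h
        push Not at h
        exact hB₀ (null_of_finite (Cardinal.lt_aleph0_iff_set_finite.mp h) fun x _ => hx x)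
      have hκΩ : κ ≤ #Ω := hB₀κ ▸ mk_set_le B₀
      have fin2 : ∀ {P Q R : Prop}, P ∨ Q → P ∨ Q ∨ R := fun h => h.elim Or.inl fun h =>
        Or.inr (Or.inl h)
      rcases hκΩ.lt_or_eq with hlt | heq
      · obtain ⟨A₀, hA₀, hA₀κ⟩ : ∃ A₀, Null F A₀ ∧ #A₀ = κ := by
          by_contra hcon
          push Not at hcon
          apply hc.1
          apply stab_eq_top_of_card (c := κ)
          intro A
          refine ⟨fun hA => ?_, hsmall A⟩
          by_contra h'
          push Not at h'
          obtain ⟨N, hNA, hN⟩ := le_mk_iff_exists_subset.mp h'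
          exact hcon N (hA.mono hNA) hN
        rcases form_of_small hκinf hlt hsmall hB₀ hB₀κ hA₀ hA₀κ hc with
          ⟨G, hG, hcl, hst, μ, hμ, hF⟩ | ⟨Φ, hΦ, hF⟩
        · exact fin2 (closedCase G hG κ hcl (hst ▸ hc) μ hμ hF)
        · right; left
          refine ⟨Φ, hΦ.symm ▸ hκinf, hΦ.symm ▸ hlt, Or.inl fun s => ?_⟩
          rw [mem_iff_of_null hF s, hΦ]
      · have hcl : Cl F κ := ⟨hκinf, hsmall, Set.univ, F.univ_mem, by rw [mk_univ, heq]⟩
        exact fin2 (closedCase F inferInstance κ hcl hc (Order.succ #Ω)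
          (Order.lt_succ_of_le hκΩ) fun A =>
            ⟨fun hA => ⟨hA, Order.lt_succ_of_le (mk_set_le A)⟩, fun hA => hA.1⟩)
  · -- sufficiency
    rintro (⟨G, hG, hs, hh, μ, hμ, hF⟩ | ⟨Φ, hΦ, hΦΩ, h⟩ | ⟨X, hX, hXne, h⟩)
    · obtain ⟨hcl, ht⟩ := cl_of_superclosed hs
      have hF' : ∀ A, Null F A ↔ Null G A ∧ #A < μ := by
        intro A
        unfold Null
        rw [hF, compl_compl]
      obtain ⟨Y, hY, hYd⟩ := exists_depth G
      rw [stab_trunc ⟨Y, hY, hYd ▸ hμ⟩ hF']
      exact isCoatom_of_homStab hcl ht (homStab_iff_hom.mpr (homogeneous_iff.mp hh))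
    · set G := almostFilter Φ hΦ with hG
      have hGn : ∀ A, Null G A ↔ #(Φ ∩ A : Set Ω) < #Φ := fun A => null_almostFilter
      have hpos : 0 < #Φ := aleph0_pos.trans_le hΦ
      have hGc : IsCoatom (stab G) := isCoatom_almost hΦ hΦΩ hGn
      rcases h with h | ⟨μ, hμ, h⟩
      · have hFn : ∀ A, Null F A ↔ #(A \ Φ : Set Ω) < #Φ := fun A =>
          null_of_mem_iff (p := fun A => #(A \ Φ : Set Ω) < #Φ) h A
        have hsmall : ∀ A C : Set Ω, #(Φ ∩ A : Set Ω) < #Φ → #(C \ Φ : Set Ω) < #Φ →
            #(A ∩ C : Set Ω) < #Φ := by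
          intro A C hA hC
          apply mk_lt_of_union hΦ _ hA hC
          rintro x ⟨hx, hx'⟩
          by_cases hxΦ : x ∈ Φ
          · exact Or.inl ⟨hxΦ, hx⟩
          · exact Or.inr ⟨hx', hxΦ⟩
        have e1 : ∀ A, Null G A ↔ Perp F #Φ A := by
          intro A
          rw [hGn]
          constructor
          · intro hA C hC
            exact hsmall A C hA ((hFn C).mp hC)
          · intro hA
            have := hA Φ ((hFn Φ).mpr (by rw [Set.sdiff_self, mk_eq_zero]; exact hpos))
            rwa [inter_comm]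
        have e2 : ∀ A, Null F A ↔ Perp G #Φ A := by
          intro A
          rw [hFn]
          constructor
          · intro hA C hC
            rw [inter_comm]
            exact hsmall C A ((hGn C).mp hC) hA
          · intro hA
            have := hA Φᶜ ((hGn _).mpr (by rw [inter_compl_self, mk_eq_zero]; exact hpos))
            rwa [← Set.sdiff_eq] at this
        have : stab F = stab G := by
          apply le_antisymm
          · apply stab_le_stab
            intro g hg A hA
            rw [e1] at hA ⊢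
            exact hA.image hg
          · apply stab_le_stab
            intro g hg A hA
            rw [e2] at hA ⊢
            exact hA.image hg
        rw [this]
        exact hGc
      · have hF' : ∀ A, Null F A ↔ Null G A ∧ #A < μ := by
          intro A
          rw [hGn]
          unfold Null
          rw [h, compl_compl, Set.sdiff_compl]
        rw [stab_trunc ⟨Φ, ?_, hμ⟩ hF']
        · exact hGc
        · have : Null G Φᶜ := by rw [hGn, inter_compl_self, mk_eq_zero]; exact hpos
          unfold Null at this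
          rwa [compl_compl] at this
    · have hGc : IsCoatom (stab (Filter.principal X)) := isCoatom_setwise hX hXne
      rcases h with h | ⟨μ, hμ, h⟩
      · have hFn : ∀ A, Null F A ↔ A ⊆ X := fun A => null_of_mem_iff (p := fun A => A ⊆ X) h A
        have : stab F = stab (Filter.principal X) := by
          ext g
          rw [mem_stab_principal, mem_stab_iff]
          constructor
          · intro hg
            have h1 : g '' X ⊆ X := (hFn _).mp ((hg X).mpr ((hFn X).mpr Subset.rfl))
            exact Set.eq_of_subset_of_ncard_le h1 (Set.ncard_image_of_injective X g.injective).ge hX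
          · intro hg A
            rw [hFn, hFn]
            conv_lhs => rw [← hg]
            exact Set.image_subset_image_iff g.injective
        rw [this]
        exact hGc
      · have hF' : ∀ A, Null F A ↔ Null (Filter.principal X) A ∧ #A < μ := by
          intro A
          rw [null_principal]
          unfold Null
          rw [h, compl_compl, Set.subset_compl_iff_disjoint_right]
        rw [stab_trunc ⟨X, Filter.mem_principal_self X, (Set.Finite.lt_aleph0 hX).trans_le hμ⟩ hF']
        exact hGc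
  · -- finite sets
    obtain ⟨X, rfl⟩ := eq_principal_of_finite F
    have hXne : X.Nonempty := Filter.principal_neBot_iff.mp inferInstance
    rw [isCoatom_finite_iff hXne]
    constructor
    · rintro ⟨h1, h2⟩
      exact ⟨X, rfl, h1, h2⟩
    · rintro ⟨X', h, h1, h2⟩
      rw [Filter.principal_eq_iff_eq] at h
      subst h
      exact ⟨h1, h2⟩

end Pool.Agent.Results.MP_60ae12_al.Classification
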